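import Pool.Agent.Lib.MP_426b05_co.H33.Main
import Pool.Agent.Lib.MP_426b05_co.H33.Pred
import Pool.Agent.Lib.MP_426b05_co.H33.Proj
import Pool.Agent.Lib.MP_426b05_co.H33.Pair
import Pool.Agent.Lib.MP_426b05_co.H33.Union
import Pool.Agent.Lib.MP_426b05_co.H49.Res
import Pool.Agent.Lib.MP_426b05_co.H49.Yxb
import Pool.Agent.Lib.MP_426b05_co.H49.Cs
import Pool.Agent.Lib.MP_426b05_co.H49.S1
import Pool.Agent.Lib.MP_426b05_co.H49.S2
import Pool.Agent.Lib.MP_426b05_co.H49.S8
import Pool.Agent.Lib.MP_426b05_co.H29.Loss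
import Pool.Agent.Lib.MP_426b05_co.H29.S3
import Pool.Agent.Lib.MP_426b05_co.H29.S4
import Pool.Agent.Lib.MP_426b05_co.H29.S5
import Pool.Agent.Lib.MP_426b05_co.H66.Lower
import Pool.Agent.Lib.MP_426b05_co.H72.Fails
import Pool.Agent.Lib.MP_426b05_co.H72.S6
import Pool.Agent.Lib.MP_426b05_co.H72.S7
import Pool.Agent.Lib.MP_426b05_co.H72.Suff

/-!
Semi-random hypergraph games: for a balanced `s`-graph `H` the general lower bound `n ^ (r - 1/μ(H))` is the threshold
if and only if `H` is constructible at `θ = 1/μ(H)`.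
-/

set_option autoImplicit false

namespace Pool.Agent.Results.MP_426b05_co.BalancedThreshold

open Finset Filter Pool.Agent.Lib.MP_426b05_co

/-- Let `2 ≤ r < s` and let `H = (V, E)` be an `s`-graph with at least one edge and `f(H) = μ(H)`. Then
`n ^ (r - 1/μ(H))` is a threshold for `H` if and only if `H` is constructible at `1/μ(H)`; and if `H` is not, then for
some `ε > 0` every strategy a.a.s. has no copy of `H` after `⌈n ^ (r - 1/μ(H) + ε)⌉` steps. -/
theorem result (r s : ℕ) (hr : 2 ≤ r) (hrs : r < s) (V : Type) [Fintype V] [DecidableEq V]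
    (E : Finset (Finset V)) (hE : ∀ e ∈ E, e.card = s) (hne : E.Nonempty)
    (hbal : (E.card : ℝ) / ((Fintype.card V : ℝ) - s + r) = mu r s E) :
    (IsThreshold r s E (fun n => (n : ℝ) ^ ((r : ℝ) - 1 / mu r s E)) ↔ Constructible r s (1 / mu r s E) E) ∧
    (¬ Constructible r s (1 / mu r s E) E → ∃ ε : ℝ, 0 < ε ∧
      ∀ σ : ∀ n, Strat n, (∀ n, s ≤ n → Legal r s (σ n)) →
        Tendsto (fun n => prob r E (σ n) ⌈(n : ℝ) ^ ((r : ℝ) - 1 / mu r s E + ε)⌉₊) atTop (nhds 0)) := by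
  have hLoss := H29.loss H49.res H49.yx H49.cs (H33.proj H33.pred) (H33.pair H33.pred)
  have hFm := H29.fm H49.res H49.yx H49.base1
  have hS3 := H29.s3 H49.s1 H49.s2a H49.s2b
  have hS4 := H29.s4 H49.s2a
  exact H33.main (H66.lower H33.union hFm H33.ans) (H72.fails H33.union hLoss H33.ans)
    (H72.suff (H29.s5 hS3 hS4) H72.s6 H72.s7 H49.s8) r s (by omega) hrs V E hE hne hbal

end Pool.Agent.Results.MP_426b05_co.BalancedThreshold
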